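import Mathlib
import Pool.Agent.H17.SQA.Stmts

/-!
# SQA, row CWB
-/

set_option autoImplicit false

namespace Pool.SQA.CWB

open Pool.CST Pool.SQA

lemma card_sym (n D : ℕ) (hn : 1 ≤ n) : Fintype.card (Sym (Fin n) D) = mon n D := by
  rw [Sym.card_sym_eq_choose, Fintype.card_fin, mon]
  have h : n + D - 1 = D + (n - 1) := by omega
  rw [h]
  exact Nat.choose_symm_add

/-- The product of two monomials of degree `d`. -/
def pr (n d : ℕ) : Sym2 (Sym (Fin n) d) → Sym (Fin n) (d + d) :=
  Sym2.lift ⟨fun a b => a.append b, fun _ _ => Subtype.ext (add_comm _ _)⟩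

lemma pr_surj (n d : ℕ) : Function.Surjective (pr n d) := by
  intro s
  obtain ⟨l, hl⟩ := Quot.exists_rep s.1
  have hl' : (↑l : Multiset (Fin n)) = s.1 := hl
  have hc : l.length = d + d := by
    have := s.2
    rw [← hl'] at this
    simpa using this
  refine ⟨s(⟨↑(l.take d), by simp [hc]⟩, ⟨↑(l.drop d), by simp [hc]⟩), ?_⟩
  apply Subtype.ext
  change (↑(l.take d) + ↑(l.drop d) : Multiset (Fin n)) = s.1
  rw [Multiset.coe_add, List.take_append_drop, hl']

lemma mon_two (n d : ℕ) (hn : 1 ≤ n) : mon n (2 * d) ≤ (mon n d + 1).choose 2 := by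
  have h := Fintype.card_le_of_surjective _ (pr_surj n d)
  rw [card_sym n (d + d) hn, Sym2.card, card_sym n d hn] at h
  rwa [two_mul]

lemma mem_set (n d : ℕ) (hn : 1 ≤ n) :
    mon n d ∈ {s : ℕ | mon n (2 * d) + s.choose 2 ≤ s * mon n d} := by
  have h := mon_two n d hn
  have h2 : (mon n d + 1).choose 2 + (mon n d).choose 2 = mon n d * mon n d := by
    have h1 := Nat.triangle_succ (mon n d)
    have h3 : (mon n d + 1).choose 2 = (mon n d).choose 2 + mon n d := by
      rw [Nat.choose_succ_succ' (mon n d) 1, Nat.choose_one_right, add_comm]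
    have h4 : (mon n d).choose 2 * 2 = mon n d * (mon n d - 1) := by
      rw [Nat.choose_two_right]
      exact Nat.div_mul_cancel (Nat.even_mul_pred_self _).two_dvd
    rw [h3]
    rcases Nat.eq_zero_or_pos (mon n d) with h0 | h0
    · simp [h0]
    · obtain ⟨k, hk⟩ := Nat.exists_eq_succ_of_ne_zero h0.ne'
      rw [hk] at h4 ⊢
      simp only [Nat.succ_eq_add_one, Nat.add_sub_cancel] at h4 ⊢
      nlinarith
  show mon n (2 * d) + (mon n d).choose 2 ≤ mon n d * mon n d
  omega

end Pool.SQA.CWB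

namespace Pool.SQA

theorem t_cwb : CWBStmt := by
  intro n d hn
  exact ⟨Nat.sInf_le (CWB.mem_set n d hn), Nat.sInf_mem ⟨_, CWB.mem_set n d hn⟩⟩

end Pool.SQA
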